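import Pool.Agent.Q320.Heap337
import Mathlib.Combinatorics.SimpleGraph.Basic
import Mathlib.Data.Fintype.Card
import Mathlib.Data.List.Perm.Basic

/-!
# The misere domination game and the heap game `0.337`
-/

namespace Pool.Agent.Q320.DomGame

open Pool.Agent.Q320.Heap337

variable {V : Type}

/-- the vertices dominated by the chosen vertices -/
def dominated (G : SimpleGraph V) (C : Finset V) : Set V := {w | ∃ c ∈ C, w = c ∨ G.Adj c w}

/-- `v` is a legal move: its closed neighbourhood is not dominated yet -/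
def Legal (G : SimpleGraph V) (C : Finset V) (v : V) : Prop :=
  ¬ ({w | w = v ∨ G.Adj v w} ⊆ dominated G C)

theorem Legal.notMem {G : SimpleGraph V} {C : Finset V} {v : V} (h : Legal G C v) : v ∉ C :=
  fun hv => h fun w hw => ⟨v, hv, hw⟩

theorem Legal.card_lt [Fintype V] [DecidableEq V] {G : SimpleGraph V} {C : Finset V} {v : V}
    (h : Legal G C v) : Fintype.card V - (insert v C).card < Fintype.card V - C.card := by
  have h1 : (insert v C).card = C.card + 1 := Finset.card_insert_of_notMem h.notMem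
  have h2 : (insert v C).card ≤ Fintype.card V := Finset.card_le_univ _
  omega

/-- The player to move wins the misere domination game when the vertices in `C` have been chosen:
either no legal move is left (the opponent made the last move and loses), or some legal move leads
to a position in which the player to move does not win. -/
def MoverWins [Fintype V] [DecidableEq V] (G : SimpleGraph V) (C : Finset V) : Prop :=
  (∀ v, ¬ Legal G C v) ∨ ∃ v, ∃ _ : Legal G C v, ¬ MoverWins G (insert v C)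
termination_by Fintype.card V - C.card
decreasing_by exact Legal.card_lt (by assumption)

theorem moverWins_iff [Fintype V] [DecidableEq V] (G : SimpleGraph V) (C : Finset V) :
    MoverWins G C ↔ (∀ v, ¬ Legal G C v) ∨ ∃ v, Legal G C v ∧ ¬ MoverWins G (insert v C) := by
  rw [MoverWins]
  simp only [exists_prop]

theorem mem_dominated_insert [DecidableEq V] (G : SimpleGraph V) (C : Finset V) (v w : V) :
    w ∈ dominated G (insert v C) ↔ (w = v ∨ G.Adj v w) ∨ w ∈ dominated G C := by
  simp [dominated]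

theorem PPos_not_zero (s : Multiset ℕ) (h : PPos s) : 0 < s.sum := by
  by_contra h0
  have h1 : s.sum = 0 := by omega
  have h2 : SS s = 0 := by
    unfold SS
    rw [Multiset.sum_eq_zero_iff] at h1
    rw [Multiset.sum_eq_zero_iff]
    intro x hx
    rw [Multiset.mem_map] at hx
    obtain ⟨y, hy, rfl⟩ := hx
    rw [h1 y hy]; rfl
  unfold PPos PP at h
  omega

theorem opt_exists (s : Multiset ℕ) (h : 0 < s.sum) : ∃ s', HOpt s s' := by
  obtain ⟨m, r, rfl, hm⟩ := exists_pos s h
  exact ⟨(m - 1) ::ₘ r, m, r, rfl, Or.inl ⟨hm, rfl⟩⟩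

theorem bisim [Fintype V] [DecidableEq V] (G : SimpleGraph V) (R : Finset V → Multiset ℕ → Prop)
    (forth : ∀ C s v, R C s → Legal G C v → ∃ s', HOpt s s' ∧ R (insert v C) s')
    (back : ∀ C s s', R C s → HOpt s s' → ∃ v, Legal G C v ∧ R (insert v C) s') :
    ∀ (k : ℕ) (C : Finset V) (s : Multiset ℕ), Fintype.card V - C.card ≤ k → R C s →
      (MoverWins G C ↔ ¬ PPos s) := by
  intro k
  induction k using Nat.strong_induction_on with
  | _ k ih =>
    intro C s hk hR
    have step : ∀ v s', Legal G C v → R (insert v C) s' → (MoverWins G (insert v C) ↔ ¬ PPos s') := by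
      intro v s' hv hR'
      have := hv.card_lt
      exact ih (Fintype.card V - (insert v C).card) (by omega) _ _ le_rfl hR'
    rw [moverWins_iff]
    constructor
    · rintro (h | ⟨v, hv, hw⟩) hP
      · obtain ⟨s', hs'⟩ := opt_exists s (PPos_not_zero s hP)
        obtain ⟨v, hv, -⟩ := back C s s' hR hs'
        exact h v hv
      · obtain ⟨s', hs', hR'⟩ := forth C s v hR hv
        have h1 := PPos_opt s s' hP hs'
        exact hw ((step v s' hv hR').2 h1)
    · intro hP
      by_cases h0 : 0 < s.sum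
      · obtain ⟨s', hs', hP'⟩ := exists_PPos s hP h0
        obtain ⟨v, hv, hR'⟩ := back C s s' hR hs'
        exact Or.inr ⟨v, hv, fun hw => (step v s' hv hR').1 hw hP'⟩
      · left
        intro v hv
        obtain ⟨s', ⟨m, r, rfl, hh⟩, -⟩ := forth C s v hR hv
        rw [Multiset.sum_cons] at h0
        rcases hh with ⟨h, -⟩ | ⟨h, -⟩ | ⟨i, j, h, -⟩ <;> omega

/-- `x` lies in the interval `p` (first element, length) -/
def In (x : ℤ) (p : ℤ × ℕ) : Prop := p.1 ≤ x ∧ x < p.1 + p.2

/-- two intervals are separated by at least two integers -/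
def Sep (p q : ℤ × ℕ) : Prop := p.1 + p.2 + 2 ≤ q.1 ∨ q.1 + q.2 + 2 ≤ p.1

theorem Sep.symm {p q : ℤ × ℕ} (h : Sep p q) : Sep q p := Or.symm h

/-- the interval lies in `[lo, hi]` and has a free neighbour in it -/
def Ok (lo hi : ℤ) (p : ℤ × ℕ) : Prop :=
  lo ≤ p.1 ∧ p.1 + p.2 ≤ hi + 1 ∧ (lo ≤ p.1 - 1 ∨ p.1 + p.2 ≤ hi)

/-- coordinates on the undominated part of a graph -/
structure Coord (G : SimpleGraph V) (κ : V → ℤ) (lo hi : ℤ) (Good : Finset V → Prop) : Prop where
  near : ∀ C v w, Good C → w ∉ dominated G C → (w = v ∨ G.Adj v w) →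
    κ w - κ v ≤ 1 ∧ κ v - κ w ≤ 1 ∧ lo ≤ κ v ∧ κ v ≤ hi
  near' : ∀ C v w, Good C → w ∉ dominated G C → κ w - κ v ≤ 1 → κ v - κ w ≤ 1 →
    (w = v ∨ G.Adj v w)
  surj : ∀ c, lo ≤ c → c ≤ hi → ∃ v, κ v = c
  mono : ∀ (C C' : Finset V), C ⊆ C' → Good C → Good C'

/-- the position `C` is represented by the list of intervals `L` -/
def Rep (G : SimpleGraph V) (κ : V → ℤ) (lo hi : ℤ) (C : Finset V) (L : List (ℤ × ℕ)) : Prop :=
  L.Pairwise Sep ∧ (∀ p ∈ L, Ok lo hi p) ∧ ∀ w, w ∉ dominated G C ↔ ∃ p ∈ L, In (κ w) p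

/-- the correspondence of positions -/
def RR (G : SimpleGraph V) (κ : V → ℤ) (lo hi : ℤ) (Good : Finset V → Prop) (C : Finset V)
    (s : Multiset ℕ) : Prop :=
  Good C ∧ ∃ L : List (ℤ × ℕ), Rep G κ lo hi C L ∧ s = (L.map Prod.snd : List ℕ)

section

variable {G : SimpleGraph V} {κ : V → ℤ} {lo hi : ℤ} {Good : Finset V → Prop}

theorem Rep.perm {C : Finset V} {L L' : List (ℤ × ℕ)} (h : Rep G κ lo hi C L) (hL : L.Perm L') :
    Rep G κ lo hi C L' := by
  obtain ⟨h1, h2, h3⟩ := h
  refine ⟨(hL.pairwise_iff (fun h => h.symm)).1 h1, fun p hp => h2 p (hL.mem_iff.2 hp), fun w => ?_⟩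
  rw [h3 w]
  constructor
  · rintro ⟨p, hp, h⟩; exact ⟨p, hL.mem_iff.1 hp, h⟩
  · rintro ⟨p, hp, h⟩; exact ⟨p, hL.mem_iff.2 hp, h⟩

theorem step_rep [DecidableEq V] (hc : Coord G κ lo hi Good) {C : Finset V} (hg : Good C) (p : ℤ × ℕ)
    (L P : List (ℤ × ℕ)) (h : Rep G κ lo hi C (p :: L)) (v : V)
    (hv1 : p.1 - 1 ≤ κ v) (hv2 : κ v ≤ p.1 + p.2)
    (hP1 : P.Pairwise Sep) (hP2 : ∀ q ∈ P, Ok lo hi q)
    (hP3 : ∀ q ∈ P, p.1 ≤ q.1 ∧ q.1 + q.2 ≤ p.1 + p.2)
    (hP4 : ∀ x : ℤ, (In x p ∧ (1 < x - κ v ∨ 1 < κ v - x)) ↔ ∃ q ∈ P, In x q) :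
    Rep G κ lo hi (insert v C) (P ++ L) := by
  obtain ⟨h1, h2, h3⟩ := h
  rw [List.pairwise_cons] at h1
  refine ⟨?_, ?_, ?_⟩
  · rw [List.pairwise_append]
    refine ⟨hP1, h1.2, fun q hq q' hq' => ?_⟩
    have h5 := h1.1 q' hq'
    have h6 := hP3 q hq
    unfold Sep at *
    omega
  · intro q hq
    rw [List.mem_append] at hq
    rcases hq with hq | hq
    · exact hP2 q hq
    · exact h2 q (List.mem_cons_of_mem _ hq)
  · intro w
    rw [mem_dominated_insert]
    constructor
    · intro hw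
      rw [not_or] at hw
      have h4 := (h3 w).1 hw.2
      have h5 : 1 < κ w - κ v ∨ 1 < κ v - κ w := by
        by_contra hcon
        exact hw.1 (hc.near' C v w hg hw.2 (by omega) (by omega))
      obtain ⟨q, hq, hwq⟩ := h4
      rw [List.mem_cons] at hq
      rcases hq with rfl | hq
      · obtain ⟨q', hq', h6⟩ := (hP4 (κ w)).1 ⟨hwq, h5⟩
        exact ⟨q', List.mem_append.2 (Or.inl hq'), h6⟩
      · exact ⟨q, List.mem_append.2 (Or.inr hq), hwq⟩
    · rintro ⟨q, hq, hwq⟩
      rw [List.mem_append] at hq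
      have key : w ∉ dominated G C ∧ (1 < κ w - κ v ∨ 1 < κ v - κ w) := by
        rcases hq with hq | hq
        · obtain ⟨h6, h7⟩ := (hP4 (κ w)).2 ⟨q, hq, hwq⟩
          exact ⟨(h3 w).2 ⟨p, List.mem_cons_self, h6⟩, h7⟩
        · refine ⟨(h3 w).2 ⟨q, List.mem_cons_of_mem _ hq, hwq⟩, ?_⟩
          have h5 := h1.1 q hq
          unfold Sep at h5
          unfold In at hwq
          omega
      rw [not_or]
      refine ⟨fun hn => ?_, key.1⟩
      have := hc.near C v w hg key.1 hn
      omega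

/-- all ways to move in an interval -/
theorem pieces (lo hi : ℤ) (a : ℤ) (m : ℕ) (c : ℤ) (hm : 1 ≤ m) (hok : Ok lo hi (a, m))
    (h1 : a - 1 ≤ c) (h2 : c ≤ a + m) :
    ∃ P : List (ℤ × ℕ), P.Pairwise Sep ∧ (∀ q ∈ P, Ok lo hi q) ∧
      (∀ q ∈ P, a ≤ q.1 ∧ q.1 + q.2 ≤ a + m) ∧
      (∀ x : ℤ, (In x (a, m) ∧ (1 < x - c ∨ 1 < c - x)) ↔ ∃ q ∈ P, In x q) ∧
      ((1 ≤ m ∧ P.map Prod.snd = [m - 1]) ∨ (2 ≤ m ∧ P.map Prod.snd = [m - 2]) ∨
        ∃ i j, m = i + j + 3 ∧ P.map Prod.snd = [i, j]) := by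
  unfold Ok In at *
  simp only at *
  rcases (by omega : c = a - 1 ∨ c = a + m ∨ (c = a ∧ m = 1) ∨ (c = a ∧ 2 ≤ m) ∨
    (c = a + m - 1 ∧ 2 ≤ m) ∨ (a + 1 ≤ c ∧ c + 2 ≤ a + m)) with h | h | ⟨h, h'⟩ | ⟨h, h'⟩ | ⟨h, h'⟩ | h
  · refine ⟨[(a + 1, m - 1)], by simp, ?_, ?_, ?_, Or.inl ⟨hm, rfl⟩⟩
    · simp only [List.mem_singleton, forall_eq]; omega
    · simp only [List.mem_singleton, forall_eq]; omega
    · intro x; simp only [List.mem_singleton, exists_eq_left]; omega
  · refine ⟨[(a, m - 1)], by simp, ?_, ?_, ?_, Or.inl ⟨hm, rfl⟩⟩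
    · simp only [List.mem_singleton, forall_eq]; omega
    · simp only [List.mem_singleton, forall_eq]; omega
    · intro x; simp only [List.mem_singleton, exists_eq_left]; omega
  · refine ⟨[(a + 1, m - 1)], by simp, ?_, ?_, ?_, Or.inl ⟨hm, rfl⟩⟩
    · simp only [List.mem_singleton, forall_eq]; omega
    · simp only [List.mem_singleton, forall_eq]; omega
    · intro x; simp only [List.mem_singleton, exists_eq_left]; omega
  · refine ⟨[(a + 2, m - 2)], by simp, ?_, ?_, ?_, Or.inr (Or.inl ⟨h', rfl⟩)⟩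
    · simp only [List.mem_singleton, forall_eq]; omega
    · simp only [List.mem_singleton, forall_eq]; omega
    · intro x; simp only [List.mem_singleton, exists_eq_left]; omega
  · refine ⟨[(a, m - 2)], by simp, ?_, ?_, ?_, Or.inr (Or.inl ⟨h', rfl⟩)⟩
    · simp only [List.mem_singleton, forall_eq]; omega
    · simp only [List.mem_singleton, forall_eq]; omega
    · intro x; simp only [List.mem_singleton, exists_eq_left]; omega
  · obtain ⟨i, hi'⟩ : ∃ i : ℕ, c - 1 - a = i := ⟨(c - 1 - a).toNat, by omega⟩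
    obtain ⟨j, hj⟩ : ∃ j : ℕ, a + m - c - 2 = j := ⟨(a + m - c - 2).toNat, by omega⟩
    refine ⟨[(a, i), (c + 2, j)], ?_, ?_, ?_, ?_, Or.inr (Or.inr ⟨i, j, by omega, rfl⟩)⟩
    · rw [List.pairwise_cons]
      refine ⟨?_, by simp⟩
      intro q hq
      rw [List.mem_singleton] at hq
      subst hq
      unfold Sep
      simp only
      omega
    · intro q hq
      simp only [List.mem_cons, List.not_mem_nil, or_false] at hq
      rcases hq with rfl | rfl <;> simp only <;> omega
    · intro q hq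
      simp only [List.mem_cons, List.not_mem_nil, or_false] at hq
      rcases hq with rfl | rfl <;> simp only <;> omega
    · intro x
      simp only [List.mem_cons, List.not_mem_nil, or_false, exists_eq_or_imp, exists_eq_left]
      omega

theorem forth [DecidableEq V] (hc : Coord G κ lo hi Good) (C : Finset V) (s : Multiset ℕ) (v : V)
    (hR : RR G κ lo hi Good C s) (hv : Legal G C v) :
    ∃ s', HOpt s s' ∧ RR G κ lo hi Good (insert v C) s' := by
  obtain ⟨hg, L, hL, rfl⟩ := hR
  unfold Legal at hv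
  rw [Set.not_subset] at hv
  obtain ⟨w, hw, hwd⟩ := hv
  obtain ⟨p, hp, hwp⟩ := (hL.2.2 w).1 hwd
  obtain ⟨hn1, hn2, hn3, hn4⟩ := hc.near C v w hg hwd hw
  obtain ⟨L1, L2, rfl⟩ := List.append_of_mem hp
  have hperm : (L1 ++ p :: L2).Perm (p :: (L1 ++ L2)) := List.perm_middle
  have hL' := hL.perm hperm
  obtain ⟨a, m⟩ := p
  unfold In at hwp
  simp only at hwp
  obtain ⟨P, hP1, hP2, hP3, hP4, hP5⟩ := pieces lo hi a m (κ v) (by omega)
    (hL.2.1 _ hp) (by omega) (by omega)
  have hrep := step_rep hc hg (a, m) (L1 ++ L2) P hL' v (by simp only; omega) (by simp only; omega)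
    hP1 hP2 hP3 hP4
  refine ⟨((P ++ (L1 ++ L2)).map Prod.snd : List ℕ), ?_,
    hc.mono C _ (Finset.subset_insert _ _) hg, _, hrep, rfl⟩
  refine ⟨m, ((L1 ++ L2).map Prod.snd : List ℕ), ?_, ?_⟩
  · rw [Multiset.cons_coe, Multiset.coe_eq_coe]
    exact hperm.map Prod.snd
  · rcases hP5 with ⟨h, h'⟩ | ⟨h, h'⟩ | ⟨i, j, h, h'⟩
    · left; refine ⟨h, ?_⟩
      rw [List.map_append, h', Multiset.cons_coe]; rfl
    · right; left; refine ⟨h, ?_⟩
      rw [List.map_append, h', Multiset.cons_coe]; rfl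
    · right; right; refine ⟨i, j, h, ?_⟩
      rw [List.map_append, h', Multiset.cons_coe, Multiset.cons_coe]; rfl

theorem back [DecidableEq V] (hc : Coord G κ lo hi Good) (C : Finset V) (s s' : Multiset ℕ)
    (hR : RR G κ lo hi Good C s) (hs : HOpt s s') :
    ∃ v, Legal G C v ∧ RR G κ lo hi Good (insert v C) s' := by
  obtain ⟨hg, L, hL, rfl⟩ := hR
  obtain ⟨m, r, hmr, hopt⟩ := hs
  have hmem : m ∈ ((L.map Prod.snd : List ℕ) : Multiset ℕ) := by rw [hmr]; exact Multiset.mem_cons_self _ _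
  rw [Multiset.mem_coe, List.mem_map] at hmem
  obtain ⟨p, hp, hpm⟩ := hmem
  obtain ⟨L1, L2, rfl⟩ := List.append_of_mem hp
  have hperm : (L1 ++ p :: L2).Perm (p :: (L1 ++ L2)) := List.perm_middle
  have hL' := hL.perm hperm
  obtain ⟨a, m'⟩ := p
  simp only at hpm
  subst hpm
  have hr : r = (((L1 ++ L2).map Prod.snd : List ℕ) : Multiset ℕ) := by
    have h1 : (((L1 ++ (a, m') :: L2).map Prod.snd : List ℕ) : Multiset ℕ) =
        m' ::ₘ (((L1 ++ L2).map Prod.snd : List ℕ) : Multiset ℕ) := by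
      rw [Multiset.cons_coe, Multiset.coe_eq_coe]
      exact hperm.map Prod.snd
    rw [h1] at hmr
    exact ((Multiset.cons_inj_right _).1 hmr).symm
  subst hr
  have hok := hL.2.1 _ hp
  -- playing at coordinate `c`
  have play : ∀ (c : ℤ) (P : List (ℤ × ℕ)), lo ≤ c → c ≤ hi → 1 ≤ m' → a - 1 ≤ c → c ≤ a + m' →
      P.Pairwise Sep → (∀ q ∈ P, Ok lo hi q) → (∀ q ∈ P, a ≤ q.1 ∧ q.1 + q.2 ≤ a + m') →
      (∀ x : ℤ, (In x (a, m') ∧ (1 < x - c ∨ 1 < c - x)) ↔ ∃ q ∈ P, In x q) →
      ∃ v, Legal G C v ∧ RR G κ lo hi Good (insert v C) ((P ++ (L1 ++ L2)).map Prod.snd : List ℕ) := by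
    intro c P hc1 hc2 hm1 hc3 hc4 hP1 hP2 hP3 hP4
    obtain ⟨v, rfl⟩ := hc.surj c hc1 hc2
    unfold Ok at hok
    simp only at hok
    refine ⟨v, ?_, hc.mono C _ (Finset.subset_insert _ _) hg, _,
      step_rep hc hg (a, m') (L1 ++ L2) P hL' v hc3 hc4 hP1 hP2 hP3 hP4, rfl⟩
    -- legality
    have hx : ∃ x : ℤ, a ≤ x ∧ x < a + m' ∧ x - κ v ≤ 1 ∧ κ v - x ≤ 1 := by
      rcases (by omega : κ v = a - 1 ∨ κ v = a + m' ∨ (a ≤ κ v ∧ κ v < a + m')) with h | h | h
      · exact ⟨a, by omega, by omega, by omega, by omega⟩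
      · exact ⟨a + m' - 1, by omega, by omega, by omega, by omega⟩
      · exact ⟨κ v, by omega, by omega, by omega, by omega⟩
    obtain ⟨x, hx1, hx2, hx3, hx4⟩ := hx
    obtain ⟨w, rfl⟩ := hc.surj x (by omega) (by omega)
    have hwd : w ∉ dominated G C := (hL.2.2 w).2 ⟨(a, m'), hp, hx1, hx2⟩
    unfold Legal
    rw [Set.not_subset]
    exact ⟨w, hc.near' C v w hg hwd hx3 hx4, hwd⟩
  unfold Ok at hok
  simp only at hok
  rcases hopt with ⟨h, rfl⟩ | ⟨h, rfl⟩ | ⟨i, j, h, rfl⟩
  · rcases hok.2.2 with h3 | h3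
    · have := play (a - 1) [(a + 1, m' - 1)] (by omega) (by omega) h (by omega) (by omega) (by simp)
        (by unfold Ok; simp only [List.mem_singleton, forall_eq]; omega)
        (by simp only [List.mem_singleton, forall_eq]; omega)
        (by intro x; unfold In; simp only [List.mem_singleton, exists_eq_left]; omega)
      simpa using this
    · have := play (a + m') [(a, m' - 1)] (by omega) (by omega) h (by omega) (by omega) (by simp)
        (by unfold Ok; simp only [List.mem_singleton, forall_eq]; omega)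
        (by simp only [List.mem_singleton, forall_eq]; omega)
        (by intro x; unfold In; simp only [List.mem_singleton, exists_eq_left]; omega)
      simpa using this
  · have := play a [(a + 2, m' - 2)] (by omega) (by omega) (by omega) (by omega) (by omega) (by simp)
      (by unfold Ok; simp only [List.mem_singleton, forall_eq]; omega)
      (by simp only [List.mem_singleton, forall_eq]; omega)
      (by intro x; unfold In; simp only [List.mem_singleton, exists_eq_left]; omega)
    simpa using this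
  · have := play (a + i + 1) [(a, i), (a + i + 3, j)] (by omega) (by omega) (by omega) (by omega)
      (by omega)
      (by
        rw [List.pairwise_cons]
        refine ⟨?_, by simp⟩
        intro q hq
        rw [List.mem_singleton] at hq
        subst hq
        unfold Sep
        simp only
        omega)
      (by
        unfold Ok
        intro q hq
        simp only [List.mem_cons, List.not_mem_nil, or_false] at hq
        rcases hq with rfl | rfl <;> simp only <;> omega)
      (by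
        intro q hq
        simp only [List.mem_cons, List.not_mem_nil, or_false] at hq
        rcases hq with rfl | rfl <;> simp only <;> omega)
      (by
        intro x
        unfold In
        simp only [List.mem_cons, List.not_mem_nil, or_false, exists_eq_or_imp, exists_eq_left]
        omega)
    simpa using this

theorem main [Fintype V] [DecidableEq V] (hc : Coord G κ lo hi Good) (C : Finset V)
    (s : Multiset ℕ) (hR : RR G κ lo hi Good C s) : MoverWins G C ↔ ¬ PPos s :=
  bisim G (RR G κ lo hi Good) (forth hc) (back hc) _ C s le_rfl hR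

end

end Pool.Agent.Q320.DomGame
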