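import Mathlib.Data.Multiset.Basic
import Mathlib.Data.Multiset.Lattice
import Mathlib.Algebra.Order.BigOperators.Group.Multiset
import Mathlib.Tactic

/-!
# Misere play of the heap game `0.337`

A move in a heap of size `m`: take one (`m → m - 1`), take two (`m → m - 2`), or take three and
split the rest into two heaps (`m = i + j + 3 → i, j`).  The P-positions under misere play are
described by three numbers of a position.
-/

set_option maxHeartbeats 4000000

namespace Pool.Agent.Q320.Heap337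

/-- the moves of the heap game -/
def HOpt (s s' : Multiset ℕ) : Prop :=
  ∃ m r, s = m ::ₘ r ∧ ((1 ≤ m ∧ s' = (m - 1) ::ₘ r) ∨ (2 ≤ m ∧ s' = (m - 2) ::ₘ r) ∨
    ∃ i j, m = i + j + 3 ∧ s' = i ::ₘ j ::ₘ r)

/-- the weight of a heap -/
def wt (m : ℕ) : ℕ := if m < 8 then (m / 2) % 2 else (m - 4) / 2

/-- the height of a heap -/
def tp (m : ℕ) : ℕ :=
  if m < 8 then (m / 2) % 2 else if m % 2 = 0 ∨ m = 9 then (m - 4) / 2 else (m - 7) / 2

/-- the losing triples -/
def PP (E S T : ℕ) : Prop :=
  (S = 0 ∧ E % 2 = 1) ∨ (0 < S ∧ E % 2 = 0 ∧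
    ((S % 2 = 0 ∧ 2 * T ≤ S + 1) ∨ (S % 2 = 1 ∧ S + 2 ≤ 2 * T)))

/-- the total weight -/
def SS (s : Multiset ℕ) : ℕ := (s.map wt).sum

/-- the largest height -/
def TT (s : Multiset ℕ) : ℕ := (s.map tp).sup

/-- the P-positions -/
def PPos (s : Multiset ℕ) : Prop := PP s.sum (SS s) (TT s)

theorem SS_cons (m : ℕ) (r : Multiset ℕ) : SS (m ::ₘ r) = wt m + SS r := by
  simp [SS]

theorem TT_cons (m : ℕ) (r : Multiset ℕ) : TT (m ::ₘ r) = max (tp m) (TT r) := by
  simp [TT]

theorem tp_le_wt (m : ℕ) : tp m ≤ wt m := by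
  unfold tp wt; split_ifs <;> omega

theorem TT_le_SS (s : Multiset ℕ) : TT s ≤ SS s := by
  induction s using Multiset.induction_on with
  | empty => simp [TT, SS]
  | cons m r ih =>
    rw [TT_cons, SS_cons]
    have := tp_le_wt m
    omega

theorem exists_top (s : Multiset ℕ) (h : s ≠ 0) : ∃ m r, s = m ::ₘ r ∧ TT r ≤ tp m := by
  induction s using Multiset.induction_on with
  | empty => exact absurd rfl h
  | cons m r ih =>
    by_cases hr : r = 0
    · exact ⟨m, r, rfl, by simp [hr, TT]⟩
    · obtain ⟨n, q, hq, hn⟩ := ih hr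
      by_cases hmn : tp n ≤ tp m
      · refine ⟨m, r, rfl, ?_⟩
        rw [hq, TT_cons]; omega
      · refine ⟨n, m ::ₘ q, by rw [hq, Multiset.cons_swap], ?_⟩
        rw [TT_cons]; omega

theorem exists_odd (s : Multiset ℕ) (h : s.sum % 2 = 1) : ∃ m r, s = m ::ₘ r ∧ m % 2 = 1 := by
  induction s using Multiset.induction_on with
  | empty => simp at h
  | cons m r ih =>
    by_cases hm : m % 2 = 1
    · exact ⟨m, r, rfl, hm⟩
    · obtain ⟨n, q, hq, hn⟩ := ih (by rw [Multiset.sum_cons] at h; omega)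
      exact ⟨n, m ::ₘ q, by rw [hq, Multiset.cons_swap], hn⟩

theorem exists_wt (s : Multiset ℕ) (h : 0 < SS s) : ∃ m r, s = m ::ₘ r ∧ 0 < wt m := by
  induction s using Multiset.induction_on with
  | empty => simp [SS] at h
  | cons m r ih =>
    by_cases hm : 0 < wt m
    · exact ⟨m, r, rfl, hm⟩
    · obtain ⟨n, q, hq, hn⟩ := ih (by rw [SS_cons] at h; omega)
      exact ⟨n, m ::ₘ q, by rw [hq, Multiset.cons_swap], hn⟩

theorem exists_pos (s : Multiset ℕ) (h : 0 < s.sum) : ∃ m r, s = m ::ₘ r ∧ 0 < m := by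
  induction s using Multiset.induction_on with
  | empty => simp at h
  | cons m r ih =>
    by_cases hm : 0 < m
    · exact ⟨m, r, rfl, hm⟩
    · obtain ⟨n, q, hq, hn⟩ := ih (by rw [Multiset.sum_cons] at h; omega)
      exact ⟨n, m ::ₘ q, by rw [hq, Multiset.cons_swap], hn⟩

/-- the local condition -/
theorem pp_one (m E S T : ℕ) (hm : 1 ≤ m) (hT : T ≤ S)
    (h : PP (m + E) (wt m + S) (max (tp m) T)) :
    ¬ PP (m - 1 + E) (wt (m - 1) + S) (max (tp (m - 1)) T) := by
  unfold PP wt tp at *
  split_ifs at * <;> omega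

theorem pp_two (m E S T : ℕ) (hm : 2 ≤ m) (hT : T ≤ S)
    (h : PP (m + E) (wt m + S) (max (tp m) T)) :
    ¬ PP (m - 2 + E) (wt (m - 2) + S) (max (tp (m - 2)) T) := by
  unfold PP wt tp at *
  split_ifs at * <;> omega

theorem pp_three (i j E S T : ℕ) (hT : T ≤ S)
    (h : PP (i + j + 3 + E) (wt (i + j + 3) + S) (max (tp (i + j + 3)) T)) :
    ¬ PP (i + (j + E)) (wt i + (wt j + S)) (max (tp i) (max (tp j) T)) := by
  unfold PP wt tp at *
  split_ifs at * <;> omega

theorem PPos_iff_cons (m : ℕ) (r : Multiset ℕ) :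
    PPos (m ::ₘ r) ↔ PP (m + r.sum) (wt m + SS r) (max (tp m) (TT r)) := by
  unfold PPos; rw [SS_cons, TT_cons, Multiset.sum_cons]

theorem PPos_iff_cons_cons (i j : ℕ) (r : Multiset ℕ) :
    PPos (i ::ₘ j ::ₘ r) ↔
      PP (i + (j + r.sum)) (wt i + (wt j + SS r)) (max (tp i) (max (tp j) (TT r))) := by
  unfold PPos
  rw [SS_cons, TT_cons, Multiset.sum_cons, SS_cons, TT_cons, Multiset.sum_cons]

theorem PPos_opt (s s' : Multiset ℕ) (h : PPos s) (ho : HOpt s s') : ¬ PPos s' := by
  obtain ⟨m, r, rfl, ⟨hm, rfl⟩ | ⟨hm, rfl⟩ | ⟨i, j, rfl, rfl⟩⟩ := ho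
  · rw [PPos_iff_cons] at *
    exact pp_one m _ _ _ hm (TT_le_SS r) h
  · rw [PPos_iff_cons] at *
    exact pp_two m _ _ _ hm (TT_le_SS r) h
  · rw [PPos_iff_cons] at h
    rw [PPos_iff_cons_cons]
    exact pp_three i j _ _ _ (TT_le_SS r) h

theorem opt_one (m : ℕ) (r : Multiset ℕ) (hm : 1 ≤ m)
    (h : PP (m - 1 + r.sum) (wt (m - 1) + SS r) (max (tp (m - 1)) (TT r))) :
    ∃ s', HOpt (m ::ₘ r) s' ∧ PPos s' :=
  ⟨(m - 1) ::ₘ r, ⟨m, r, rfl, Or.inl ⟨hm, rfl⟩⟩, (PPos_iff_cons _ _).2 h⟩

theorem opt_two (m : ℕ) (r : Multiset ℕ) (hm : 2 ≤ m)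
    (h : PP (m - 2 + r.sum) (wt (m - 2) + SS r) (max (tp (m - 2)) (TT r))) :
    ∃ s', HOpt (m ::ₘ r) s' ∧ PPos s' :=
  ⟨(m - 2) ::ₘ r, ⟨m, r, rfl, Or.inr (Or.inl ⟨hm, rfl⟩)⟩, (PPos_iff_cons _ _).2 h⟩

theorem opt_three (m i j : ℕ) (r : Multiset ℕ) (hm : m = i + j + 3)
    (h : PP (i + (j + r.sum)) (wt i + (wt j + SS r)) (max (tp i) (max (tp j) (TT r)))) :
    ∃ s', HOpt (m ::ₘ r) s' ∧ PPos s' :=
  ⟨i ::ₘ j ::ₘ r, ⟨m, r, rfl, Or.inr (Or.inr ⟨i, j, hm, rfl⟩)⟩, (PPos_iff_cons_cons _ _ _).2 h⟩

theorem pp_zero {E S T : ℕ} (hS : S = 0) (hE : E % 2 = 1) : PP E S T := Or.inl ⟨hS, hE⟩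

theorem pp_even {E S T : ℕ} (hS : 0 < S) (hE : E % 2 = 0) (h : S % 2 = 0) (hT : 2 * T ≤ S + 1) :
    PP E S T := Or.inr ⟨hS, hE, Or.inl ⟨h, hT⟩⟩

theorem pp_odd {E S T : ℕ} (hE : E % 2 = 0) (h : S % 2 = 1) (hT : S + 2 ≤ 2 * T) :
    PP E S T := Or.inr ⟨by omega, hE, Or.inr ⟨h, hT⟩⟩

theorem wt_even (k : ℕ) (hk : 4 ≤ k) : wt (2 * k) = k - 2 := by
  unfold wt; split_ifs <;> omega

theorem wt_odd (k : ℕ) (hk : 4 ≤ k) : wt (2 * k + 1) = k - 2 := by
  unfold wt; split_ifs <;> omega

theorem tp_even (k : ℕ) (hk : 4 ≤ k) : tp (2 * k) = k - 2 := by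
  unfold tp; split_ifs <;> omega

theorem tp_odd (k : ℕ) (hk : 5 ≤ k) : tp (2 * k + 1) = k - 3 := by
  unfold tp; split_ifs <;> omega

theorem heap_cases (m : ℕ) : m < 10 ∨ (∃ k, 5 ≤ k ∧ m = 2 * k) ∨ (∃ k, 5 ≤ k ∧ m = 2 * k + 1) := by
  by_cases h : m < 10
  · exact Or.inl h
  · rcases Nat.even_or_odd' m with ⟨k, hk | hk⟩
    · exact Or.inr (Or.inl ⟨k, by omega, hk⟩)
    · exact Or.inr (Or.inr ⟨k, by omega, hk⟩)

/-- a heap of positive weight loses one unit of weight under `m → m - 2` -/
theorem wt_sub_two (m : ℕ) (h : 0 < wt m) : 2 ≤ m ∧ wt (m - 2) + 1 = wt m ∧ tp (m - 2) ≤ tp m ∧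
    tp m ≤ tp (m - 2) + 1 ∧ (m ≠ 11 → tp (m - 2) + 1 = tp m) := by
  rcases heap_cases m with hm | ⟨k, hk, rfl⟩ | ⟨k, hk, rfl⟩
  · interval_cases m <;> revert h <;> decide
  · refine ⟨by omega, ?_⟩
    rcases Nat.lt_or_ge k 6 with h6 | h6
    · interval_cases k; decide
    · have e : 2 * k - 2 = 2 * (k - 1) := by omega
      rw [e, wt_even k (by omega), tp_even k (by omega), wt_even (k - 1) (by omega),
        tp_even (k - 1) (by omega)]
      omega
  · refine ⟨by omega, ?_⟩
    rcases Nat.lt_or_ge k 6 with h6 | h6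
    · interval_cases k; decide
    · have e : 2 * k + 1 - 2 = 2 * (k - 1) + 1 := by omega
      rw [e, wt_odd k (by omega), tp_odd k (by omega), wt_odd (k - 1) (by omega),
        tp_odd (k - 1) (by omega)]
      omega

/-- weight and height of a heap -/
theorem wt_tp (m : ℕ) : wt m = tp m ∨ (wt m = tp m + 1 ∧ 3 ≤ wt m ∧ m = 2 * wt m + 5) := by
  rcases heap_cases m with hm | ⟨k, hk, rfl⟩ | ⟨k, hk, rfl⟩
  · interval_cases m <;> decide
  · left; rw [wt_even k (by omega), tp_even k (by omega)]
  · right; rw [wt_odd k (by omega), tp_odd k (by omega)]; omega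

theorem wt_small (m : ℕ) (h : wt m = 0) : m = 0 ∨ m = 1 ∨ m = 4 ∨ m = 5 := by
  rcases heap_cases m with hm | ⟨k, hk, rfl⟩ | ⟨k, hk, rfl⟩
  · interval_cases m <;> revert h <;> decide
  · rw [wt_even k (by omega)] at h; omega
  · rw [wt_odd k (by omega)] at h; omega

theorem wt_small1 (m : ℕ) (h : wt m = 1) : m = 2 ∨ m = 3 ∨ m = 6 ∨ m = 7 := by
  rcases heap_cases m with hm | ⟨k, hk, rfl⟩ | ⟨k, hk, rfl⟩
  · interval_cases m <;> revert h <;> decide
  · rw [wt_even k (by omega)] at h; omega
  · rw [wt_odd k (by omega)] at h; omega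

theorem wt_small2 (m : ℕ) (h : wt m = 2) : m = 8 ∨ m = 9 := by
  rcases heap_cases m with hm | ⟨k, hk, rfl⟩ | ⟨k, hk, rfl⟩
  · interval_cases m <;> revert h <;> decide
  · rw [wt_even k (by omega)] at h; omega
  · rw [wt_odd k (by omega)] at h; omega

theorem TT_pos (s : Multiset ℕ) (h : 0 < SS s) : 0 < TT s := by
  obtain ⟨m, r, rfl, hm⟩ := exists_wt s h
  rw [TT_cons]
  have := wt_tp m
  have := le_max_left (tp m) (TT r)
  omega

/-- all heaps have weight zero -/
theorem caseA (s : Multiset ℕ) (h0 : SS s = 0) (hE : s.sum % 2 = 0) (hp : 0 < s.sum) :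
    ∃ s', HOpt s s' ∧ PPos s' := by
  obtain ⟨m, r, rfl, hm⟩ := exists_pos s hp
  rw [SS_cons] at h0
  rw [Multiset.sum_cons] at hE hp
  have hw : wt m = 0 := by omega
  have hr : SS r = 0 := by omega
  have hm' : m = 1 ∨ m = 4 ∨ m = 5 := by
    have := wt_small m hw
    omega
  rcases hm' with rfl | rfl | rfl
  · exact opt_one 1 r (by norm_num) (pp_zero (by rw [hr]; rfl) (by omega))
  · exact opt_three 4 0 1 r (by norm_num) (pp_zero (by rw [hr]; rfl) (by omega))
  · exact opt_one 5 r (by norm_num) (pp_zero (by rw [hr]; rfl) (by omega))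

/-- even sum, wrong parity, even weight -/
theorem caseB1 (s : Multiset ℕ) (h0 : 0 < SS s) (hE : s.sum % 2 = 0) (hS : SS s % 2 = 0)
    (hT : SS s + 2 ≤ 2 * TT s) : ∃ s', HOpt s s' ∧ PPos s' := by
  obtain ⟨m, r, rfl, hm⟩ := exists_top s (by rintro rfl; simp [SS] at h0)
  have hTr := TT_le_SS r
  rw [SS_cons] at h0 hS hT
  rw [TT_cons, max_eq_left hm] at hT
  rw [Multiset.sum_cons] at hE
  have h2 := wt_tp m
  by_cases hr : 0 < SS r
  · obtain ⟨n, q, rfl, hn⟩ := exists_wt r hr
    rw [Multiset.cons_swap]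
    obtain ⟨a1, a2, a3, a4, a5⟩ := wt_sub_two n hn
    rw [SS_cons] at hS hT
    rw [Multiset.sum_cons] at hE
    refine opt_two n _ a1 ?_
    rw [SS_cons, TT_cons, Multiset.sum_cons]
    have := le_max_left (tp m) (TT q)
    have := le_max_right (tp (n - 2)) (max (tp m) (TT q))
    exact pp_odd (by omega) (by omega) (by omega)
  · have hS0 : SS r = 0 := by omega
    have hT0 : TT r = 0 := by omega
    rw [hS0] at h0 hS hT hTr
    by_cases h8 : wt m ≤ 4
    · have h9 : m = 8 ∨ m = 9 ∨ m = 13 ∨ m = 12 := by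
        rcases h2 with h2 | ⟨h2, h3, h4⟩
        · have h5 : wt m = 2 ∨ wt m = 4 := by omega
          rcases h5 with h5 | h5
          · have := wt_small2 m h5; omega
          · rcases heap_cases m with hm | ⟨k, hk, rfl⟩ | ⟨k, hk, rfl⟩
            · exfalso
              interval_cases m <;> revert h5 <;> decide
            · rw [wt_even k (by omega)] at h5; omega
            · rw [wt_odd k (by omega)] at h5; omega
        · omega
      rcases h9 with rfl | rfl | rfl | rfl
      · exact opt_three 8 0 5 r (by norm_num) (pp_zero (by rw [hS0]; rfl) (by omega))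
      · exact opt_three 9 1 5 r (by norm_num) (pp_zero (by rw [hS0]; rfl) (by omega))
      · exact opt_three 13 5 5 r (by norm_num) (pp_zero (by rw [hS0]; rfl) (by omega))
      · exact opt_three 12 4 5 r (by norm_num) (pp_zero (by rw [hS0]; rfl) (by omega))
    · obtain ⟨a1, a2, a3, a4, a5⟩ := wt_sub_two m (by omega)
      refine opt_two m _ a1 ?_
      rw [hS0, hT0, Nat.max_zero]
      exact pp_odd (by omega) (by omega) (by omega)

/-- even sum, wrong parity, odd weight -/
theorem caseB2 (s : Multiset ℕ) (h0 : 0 < SS s) (hE : s.sum % 2 = 0) (hS : SS s % 2 = 1)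
    (hT : 2 * TT s ≤ SS s + 1) : ∃ s', HOpt s s' ∧ PPos s' := by
  obtain ⟨m, r, rfl, hm⟩ := exists_top s (by rintro rfl; simp [SS] at h0)
  have hTr := TT_le_SS r
  rw [SS_cons] at h0 hS hT
  rw [TT_cons, max_eq_left hm] at hT
  rw [Multiset.sum_cons] at hE
  have h2 := wt_tp m
  have hw0 : 0 < wt m := by
    by_contra h
    have := TT_pos r
    omega
  obtain ⟨a1, a2, a3, a4, a5⟩ := wt_sub_two m hw0
  by_cases h1 : wt m + SS r = 1
  · have hr : SS r = 0 := by omega
    have := wt_small1 m (by omega)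
    rcases this with rfl | rfl | rfl | rfl
    · exact opt_one 2 r (by norm_num) (pp_zero (by rw [hr]; rfl) (by omega))
    · exact opt_three 3 0 0 r (by norm_num) (pp_zero (by rw [hr]; rfl) (by omega))
    · exact opt_one 6 r (by norm_num) (pp_zero (by rw [hr]; rfl) (by omega))
    · exact opt_three 7 0 4 r (by norm_num) (pp_zero (by rw [hr]; rfl) (by omega))
  · by_cases h11 : m = 11 ∧ SS r = 0
    · obtain ⟨rfl, hr⟩ := h11
      exact opt_three 11 4 4 r (by norm_num) (pp_zero (by rw [hr]; rfl) (by omega))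
    · refine opt_two m _ a1 ?_
      have h3 : 2 * tp (m - 2) ≤ wt (m - 2) + SS r + 1 := by
        by_cases hm11 : m = 11
        · subst hm11
          have t9 : tp (11 - 2) = 2 := by decide
          have w9 : wt (11 - 2) = 2 := by decide
          have w11 : wt 11 = 3 := by decide
          omega
        · have := a5 hm11
          omega
      have h4 : 2 * TT r ≤ wt (m - 2) + SS r + 1 := by
        omega
      refine pp_even (by omega) (by omega) (by omega) ?_
      rcases max_choice (tp (m - 2)) (TT r) with h5 | h5 <;> rw [h5] <;> assumption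

theorem max_le' {a b c : ℕ} (h1 : 2 * a ≤ c) (h2 : 2 * b ≤ c) : 2 * max a b ≤ c := by
  rcases max_choice a b with h | h <;> rw [h] <;> assumption

/-- odd sum, some large odd heap -/
theorem caseC1 (k : ℕ) (r : Multiset ℕ) (hk : 5 ≤ k)
    (hE : (2 * k + 1 + r.sum) % 2 = 1) : ∃ s', HOpt ((2 * k + 1) ::ₘ r) s' ∧ PPos s' := by
  have hTr := TT_le_SS r
  have o1 : PP (2 * k + 1 - 1 + r.sum) (k - 2 + SS r) (max (k - 2) (TT r)) →
      ∃ s', HOpt ((2 * k + 1) ::ₘ r) s' ∧ PPos s' := by
    intro h
    refine opt_one (2 * k + 1) r (by omega) ?_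
    have e : 2 * k + 1 - 1 = 2 * k := by omega
    rw [e] at h ⊢
    rw [wt_even k (by omega), tp_even k (by omega)]
    exact h
  have o2 : PP (0 + (2 * (k - 1) + r.sum)) (0 + (k - 3 + SS r)) (max 0 (max (k - 3) (TT r))) →
      ∃ s', HOpt ((2 * k + 1) ::ₘ r) s' ∧ PPos s' := by
    intro h
    refine opt_three (2 * k + 1) 0 (2 * (k - 1)) r (by omega) ?_
    rw [wt_even (k - 1) (by omega), tp_even (k - 1) (by omega)]
    exact h
  have w3 : wt (2 * (k - 2) + 1) = k - 4 := by
    rcases Nat.lt_or_ge k 6 with h6 | h6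
    · interval_cases k; decide
    · rw [wt_odd (k - 2) (by omega)]; omega
  have t3 : tp (2 * (k - 2) + 1) ≤ k - 4 := by
    have := tp_le_wt (2 * (k - 2) + 1)
    omega
  by_cases hS : (k - 2 + SS r) % 2 = 0
  · by_cases c1 : 2 * max (k - 2) (TT r) ≤ k - 2 + SS r + 1
    · exact o1 (pp_even (by omega) (by omega) hS c1)
    by_cases c2 : k - 3 + SS r + 2 ≤ 2 * max (k - 3) (TT r)
    · refine o2 (pp_odd (by omega) (by omega) ?_)
      rw [Nat.zero_max]; omega
    refine opt_three (2 * k + 1) 1 (2 * (k - 2) + 1) r (by omega) ?_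
    have w1 : wt 1 = 0 := by decide
    have t1 : tp 1 = 0 := by decide
    rw [w1, t1, w3, Nat.zero_max, Nat.zero_add]
    have a1 := le_max_left (k - 3) (TT r)
    have a2 := le_max_right (k - 3) (TT r)
    have a3 : TT r ≤ k - 2 := by
      by_contra h
      have : max (k - 2) (TT r) = TT r := max_eq_right (by omega)
      omega
    rw [max_eq_left a3] at c1
    exact pp_even (by omega) (by omega) (by omega) (max_le' (by omega) (by omega))
  · by_cases c1 : k - 2 + SS r + 2 ≤ 2 * max (k - 2) (TT r)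
    · exact o1 (pp_odd (by omega) (by omega) c1)
    by_cases c2 : 2 * max (k - 3) (TT r) ≤ k - 3 + SS r + 1
    · refine o2 (pp_even (by omega) (by omega) (by omega) ?_)
      rw [Nat.zero_max]; omega
    refine opt_three (2 * k + 1) 1 (2 * (k - 2) + 1) r (by omega) ?_
    have w1 : wt 1 = 0 := by decide
    have t1 : tp 1 = 0 := by decide
    rw [w1, t1, w3, Nat.zero_max, Nat.zero_add]
    have a1 := le_max_left (k - 2) (TT r)
    have a2 := le_max_right (k - 2) (TT r)
    have a3 : k - 3 ≤ TT r := by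
      by_contra h
      have : max (k - 3) (TT r) = k - 3 := max_eq_left (by omega)
      omega
    rw [max_eq_right a3] at c2
    have a4 := le_max_right (tp (2 * (k - 2) + 1)) (TT r)
    exact pp_odd (by omega) (by omega) (by omega)

theorem caseC7 (r : Multiset ℕ) (hE : (7 + r.sum) % 2 = 1) :
    ∃ s', HOpt (7 ::ₘ r) s' ∧ PPos s' := by
  have hTr := TT_le_SS r
  have w0 : wt 0 = 0 := by decide
  have w4 : wt 4 = 0 := by decide
  have w2 : wt 2 = 1 := by decide
  have t0 : tp 0 = 0 := by decide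
  have t4 : tp 4 = 0 := by decide
  have t2 : tp 2 = 1 := by decide
  by_cases c1 : 0 < SS r ∧ ((SS r % 2 = 0 ∧ 2 * TT r ≤ SS r + 1) ∨
      (SS r % 2 = 1 ∧ SS r + 2 ≤ 2 * TT r))
  · refine opt_three 7 0 4 r (by norm_num) ?_
    rw [w0, w4, t0, t4, Nat.zero_max, Nat.zero_max, Nat.zero_add, Nat.zero_add]
    rcases c1 with ⟨c0, c1 | c1⟩
    · exact pp_even (by omega) (by omega) (by omega) (by omega)
    · exact pp_odd (by omega) (by omega) (by omega)
  · have hh : (SS r = 0) ∨ (0 < SS r ∧ ((SS r % 2 = 1 ∧ 2 * TT r ≤ SS r + 1) ∨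
      (SS r % 2 = 0 ∧ SS r + 2 ≤ 2 * TT r))) := by omega
    rcases hh with hh | ⟨hh, h3 | h3⟩
    · refine opt_three 7 2 2 r (by norm_num) ?_
      rw [w2, t2]
      exact pp_even (by omega) (by omega) (by omega)
        (max_le' (by omega) (max_le' (by omega) (by omega)))
    · refine opt_one 7 r (by norm_num) ?_
      have w6 : wt (7 - 1) = 1 := by decide
      have t6 : tp (7 - 1) = 1 := by decide
      rw [w6, t6]
      exact pp_even (by omega) (by omega) (by omega) (max_le' (by omega) (by omega))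
    · by_cases h4 : 2 * TT r ≤ SS r + 3
      · refine opt_three 7 2 2 r (by norm_num) ?_
        rw [w2, t2]
        exact pp_even (by omega) (by omega) (by omega)
          (max_le' (by omega) (max_le' (by omega) (by omega)))
      · refine opt_one 7 r (by norm_num) ?_
        have w6 : wt (7 - 1) = 1 := by decide
        have t6 : tp (7 - 1) = 1 := by decide
        rw [w6, t6]
        have := le_max_right 1 (TT r)
        exact pp_odd (by omega) (by omega) (by omega)

theorem caseC9 (r : Multiset ℕ) (hE : (9 + r.sum) % 2 = 1) :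
    ∃ s', HOpt (9 ::ₘ r) s' ∧ PPos s' := by
  have hTr := TT_le_SS r
  have w0 : wt 0 = 0 := by decide
  have w1 : wt 1 = 0 := by decide
  have w3 : wt 3 = 1 := by decide
  have w5 : wt 5 = 0 := by decide
  have w6 : wt 6 = 1 := by decide
  have w8 : wt (9 - 1) = 2 := by decide
  have t0 : tp 0 = 0 := by decide
  have t1 : tp 1 = 0 := by decide
  have t3 : tp 3 = 1 := by decide
  have t5 : tp 5 = 0 := by decide
  have t6 : tp 6 = 1 := by decide
  have t8 : tp (9 - 1) = 2 := by decide
  by_cases c1 : 0 < SS r ∧ ((SS r % 2 = 0 ∧ 2 * TT r ≤ SS r + 1) ∨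
      (SS r % 2 = 1 ∧ SS r + 2 ≤ 2 * TT r))
  · refine opt_three 9 1 5 r (by norm_num) ?_
    rw [w1, w5, t1, t5, Nat.zero_max, Nat.zero_max, Nat.zero_add, Nat.zero_add]
    rcases c1 with ⟨c0, c1 | c1⟩
    · exact pp_even c0 (by omega) c1.1 c1.2
    · exact pp_odd (by omega) c1.1 c1.2
  · have hh : (SS r = 0) ∨ (0 < SS r ∧ ((SS r % 2 = 1 ∧ 2 * TT r ≤ SS r + 1) ∨
      (SS r % 2 = 0 ∧ SS r + 2 ≤ 2 * TT r))) := by omega
    rcases hh with hh | ⟨hh, h3 | h3⟩
    · refine opt_three 9 3 3 r (by norm_num) ?_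
      rw [w3, t3]
      exact pp_even (by omega) (by omega) (by omega)
        (max_le' (by omega) (max_le' (by omega) (by omega)))
    · refine opt_three 9 0 6 r (by norm_num) ?_
      rw [w0, w6, t0, t6, Nat.zero_max, Nat.zero_add]
      exact pp_even (by omega) (by omega) (by omega) (max_le' (by omega) (by omega))
    · by_cases h4 : 2 * TT r ≤ SS r + 3
      · refine opt_three 9 3 3 r (by norm_num) ?_
        rw [w3, t3]
        exact pp_even (by omega) (by omega) (by omega)
          (max_le' (by omega) (max_le' (by omega) (by omega)))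
      · refine opt_three 9 0 6 r (by norm_num) ?_
        rw [w0, w6, t0, t6, Nat.zero_max, Nat.zero_add]
        have := le_max_right 1 (TT r)
        exact pp_odd (by omega) (by omega) (by omega)

/-- moves of even heaps -/
theorem even_pred (n : ℕ) (h : n % 2 = 0) (h0 : 0 < wt n) :
    wt (n - 1) + 1 = wt n ∧ tp (n - 1) + 1 ≤ wt n := by
  rcases heap_cases n with hn | ⟨k, hk, rfl⟩ | ⟨k, hk, rfl⟩
  · interval_cases n <;> revert h0 h <;> decide
  · rcases Nat.lt_or_ge k 6 with h6 | h6
    · interval_cases k; decide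
    · have e : 2 * k - 1 = 2 * (k - 1) + 1 := by omega
      rw [e, wt_even k (by omega), wt_odd (k - 1) (by omega), tp_odd (k - 1) (by omega)]
      omega
  · omega

/-- odd sum, all odd heaps small, even weight, wrong parity -/
theorem caseC2 (s : Multiset ℕ) (h0 : 0 < SS s) (hE : s.sum % 2 = 1) (hS : SS s % 2 = 0)
    (hT : SS s + 2 ≤ 2 * TT s) (hodd : ∀ m ∈ s, m % 2 = 1 → m < 7) :
    ∃ s', HOpt s s' ∧ PPos s' := by
  obtain ⟨n, r, rfl, hn⟩ := exists_top s (by rintro rfl; simp [SS] at h0)
  have hTr := TT_le_SS r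
  rw [SS_cons] at h0 hS hT
  rw [TT_cons, max_eq_left hn] at hT
  rw [Multiset.sum_cons] at hE
  have h2 := wt_tp n
  have hn7 := hodd n (Multiset.mem_cons_self n r)
  rcases heap_cases n with hm | ⟨k, hk, rfl⟩ | ⟨k, hk, rfl⟩
  · have h8 : n = 8 := by
      interval_cases n <;> first | rfl | (exfalso; revert hT h0 hn7; simp [wt, tp]; try omega)
    subst h8
    have w8 : wt 8 = 2 := by decide
    have t8 : tp 8 = 2 := by decide
    have hr : SS r = 0 := by omega
    have hr' : TT r = 0 := by omega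
    refine opt_three 8 2 3 r (by norm_num) ?_
    have w2 : wt 2 = 1 := by decide
    have w3 : wt 3 = 1 := by decide
    have t2 : tp 2 = 1 := by decide
    have t3 : tp 3 = 1 := by decide
    rw [w2, w3, t2, t3, hr, hr']
    exact pp_even (by omega) (by omega) (by omega) (by decide)
  · rw [wt_even k (by omega), tp_even k (by omega)] at *
    by_cases c1 : k - 2 + SS r + 6 ≤ 2 * (k - 2)
    · refine opt_one (2 * k) r (by omega) ?_
      have e : 2 * k - 1 = 2 * (k - 1) + 1 := by omega
      rw [e, wt_odd (k - 1) (by omega), tp_odd (k - 1) (by omega)]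
      have := le_max_left (k - 1 - 3) (TT r)
      exact pp_odd (by omega) (by omega) (by omega)
    · rcases Nat.lt_or_ge k 7 with h7 | h7
      · have h56 : k = 5 ∨ k = 6 := by omega
        rcases h56 with rfl | rfl
        · refine opt_three 10 3 4 r (by norm_num) ?_
          have w3 : wt 3 = 1 := by decide
          have w4 : wt 4 = 0 := by decide
          have t3 : tp 3 = 1 := by decide
          have t4 : tp 4 = 0 := by decide
          rw [w3, w4, t3, t4, Nat.zero_max]
          exact pp_even (by omega) (by omega) (by omega) (max_le' (by omega) (by omega))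
        · by_cases c2 : SS r = 0
          · refine opt_three 12 2 7 r (by norm_num) ?_
            have w3 : wt 2 = 1 := by decide
            have w4 : wt 7 = 1 := by decide
            have t3 : tp 2 = 1 := by decide
            have t4 : tp 7 = 1 := by decide
            rw [w3, w4, t3, t4]
            exact pp_even (by omega) (by omega) (by omega)
              (max_le' (by omega) (max_le' (by omega) (by omega)))
          · refine opt_three 12 1 8 r (by norm_num) ?_
            have w3 : wt 1 = 0 := by decide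
            have w4 : wt 8 = 2 := by decide
            have t3 : tp 1 = 0 := by decide
            have t4 : tp 8 = 2 := by decide
            rw [w3, w4, t3, t4, Nat.zero_max]
            exact pp_even (by omega) (by omega) (by omega) (max_le' (by omega) (by omega))
      · by_cases c2 : k - 2 + SS r + 2 = 2 * (k - 2)
        · refine opt_three (2 * k) 1 (2 * (k - 2)) r (by omega) ?_
          have w3 : wt 1 = 0 := by decide
          have t3 : tp 1 = 0 := by decide
          rw [w3, t3, Nat.zero_max, wt_even (k - 2) (by omega), tp_even (k - 2) (by omega)]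
          exact pp_even (by omega) (by omega) (by omega) (max_le' (by omega) (by omega))
        · refine opt_three (2 * k) 3 (2 * (k - 3)) r (by omega) ?_
          have w3 : wt 3 = 1 := by decide
          have t3 : tp 3 = 1 := by decide
          rw [w3, t3, wt_even (k - 3) (by omega), tp_even (k - 3) (by omega)]
          exact pp_even (by omega) (by omega) (by omega)
            (max_le' (by omega) (max_le' (by omega) (by omega)))
  · omega

/-- odd sum, all odd heaps small, odd weight, wrong parity -/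
theorem caseC3 (s : Multiset ℕ) (h0 : 0 < SS s) (hE : s.sum % 2 = 1) (hS : SS s % 2 = 1)
    (hT : 2 * TT s ≤ SS s + 1) (hodd : ∀ m ∈ s, m % 2 = 1 → m < 7) :
    ∃ s', HOpt s s' ∧ PPos s' := by
  by_cases h5 : 5 ∈ s
  · obtain ⟨r, rfl⟩ := Multiset.exists_cons_of_mem h5
    have w5 : wt 5 = 0 := by decide
    have t5 : tp 5 = 0 := by decide
    rw [SS_cons, w5] at h0 hS hT
    rw [TT_cons, t5, Nat.zero_max] at hT
    rw [Multiset.sum_cons] at hE
    refine opt_three 5 0 2 r (by norm_num) ?_
    have w0 : wt 0 = 0 := by decide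
    have t0 : tp 0 = 0 := by decide
    have w2 : wt 2 = 1 := by decide
    have t2 : tp 2 = 1 := by decide
    rw [w0, t0, w2, t2, Nat.zero_max]
    exact pp_even (by omega) (by omega) (by omega) (max_le' (by omega) (by omega))
  obtain ⟨n, r, rfl, hn⟩ := exists_top s (by rintro rfl; simp [SS] at h0)
  have hTr := TT_le_SS r
  rw [SS_cons] at h0 hS hT
  rw [TT_cons, max_eq_left hn] at hT
  rw [Multiset.sum_cons] at hE
  have h2 := wt_tp n
  have hw0 : 0 < wt n := by
    by_contra h
    have := TT_pos r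
    omega
  have hn7 := hodd n (Multiset.mem_cons_self n r)
  by_cases h1 : wt n + SS r = 1
  · -- a single heap of weight one
    obtain ⟨a1, a2, a3, a4, a5⟩ := wt_sub_two n hw0
    exact opt_two n r a1 (pp_zero (by omega) (by omega))
  · by_cases hodd' : n % 2 = 1
    · have h3 : n = 3 := by
        have := hn7 hodd'
        have h135 : n = 1 ∨ n = 3 ∨ n = 5 := by omega
        rcases h135 with h | h | h
        · subst h; exact absurd hw0 (by decide)
        · exact h
        · subst h; exact absurd (Multiset.mem_cons_self 5 r) h5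
      subst h3
      have w3 : wt 3 = 1 := by decide
      have t3 : tp 3 = 1 := by decide
      refine opt_three 3 0 0 r (by norm_num) ?_
      have w0 : wt 0 = 0 := by decide
      have t0 : tp 0 = 0 := by decide
      rw [w0, t0, Nat.zero_max, Nat.zero_max]
      exact pp_even (by omega) (by omega) (by omega) (by omega)
    · obtain ⟨b1, b2⟩ := even_pred n (by omega) hw0
      refine opt_one n r (by
        rcases Nat.eq_zero_or_pos n with h | h
        · subst h; exact absurd hw0 (by decide)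
        · exact h) ?_
      have hn1 : 1 ≤ n := by
        rcases Nat.eq_zero_or_pos n with h | h
        · subst h; exact absurd hw0 (by decide)
        · exact h
      exact pp_even (by omega) (by omega) (by omega) (max_le' (by omega) (by omega))

theorem small_move (m : ℕ) (r : Multiset ℕ) (hm : m = 1 ∨ m = 3 ∨ m = 5)
    (h : PP (m + r.sum + 1) (wt m + SS r) (max (tp m) (TT r))) :
    ∃ s', HOpt (m ::ₘ r) s' ∧ PPos s' := by
  rcases hm with rfl | rfl | rfl
  · refine opt_one 1 r (by norm_num) ?_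
    have w : wt (1 - 1) = wt 1 := by decide
    have t : tp (1 - 1) = tp 1 := by decide
    rw [w, t]
    unfold PP at *
    omega
  · refine opt_one 3 r (by norm_num) ?_
    have w : wt (3 - 1) = wt 3 := by decide
    have t : tp (3 - 1) = tp 3 := by decide
    rw [w, t]
    unfold PP at *
    omega
  · refine opt_one 5 r (by norm_num) ?_
    have w : wt (5 - 1) = wt 5 := by decide
    have t : tp (5 - 1) = tp 5 := by decide
    rw [w, t]
    unfold PP at *
    omega

/-- an N-position with a move has a move to a P-position -/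
theorem exists_PPos (s : Multiset ℕ) (h : ¬ PPos s) (hp : 0 < s.sum) :
    ∃ s', HOpt s s' ∧ PPos s' := by
  have hTS := TT_le_SS s
  have hTp := TT_pos s
  by_cases hE : s.sum % 2 = 0
  · by_cases h0 : SS s = 0
    · exact caseA s h0 hE hp
    · by_cases hS : SS s % 2 = 0
      · refine caseB1 s (by omega) hE hS ?_
        by_contra hc
        exact h (pp_even (by omega) hE hS (by omega))
      · refine caseB2 s (by omega) hE (by omega) ?_
        by_contra hc
        exact h (pp_odd hE (by omega) (by omega))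
  · have h0 : SS s ≠ 0 := fun h0 => h (pp_zero h0 (by omega))
    by_cases hbig : ∃ m ∈ s, m % 2 = 1 ∧ 7 ≤ m
    · obtain ⟨m, hm, hm2, hm7⟩ := hbig
      obtain ⟨r, rfl⟩ := Multiset.exists_cons_of_mem hm
      rw [Multiset.sum_cons] at hE
      by_cases h11 : 11 ≤ m
      · obtain ⟨k, hk⟩ : ∃ k, m = 2 * k + 1 := ⟨m / 2, by omega⟩
        subst hk
        exact caseC1 k r (by omega) (by omega)
      · have h79 : m = 7 ∨ m = 9 := by omega
        rcases h79 with rfl | rfl
        · exact caseC7 r (by omega)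
        · exact caseC9 r (by omega)
    · have hodd : ∀ m ∈ s, m % 2 = 1 → m < 7 := by
        intro m hm h1
        by_contra hc
        exact hbig ⟨m, hm, h1, by omega⟩
      by_cases hS : SS s % 2 = 0
      · by_cases hT : 2 * TT s ≤ SS s + 1
        · obtain ⟨m, r, rfl, hm⟩ := exists_odd s (by omega)
          have := hodd m (Multiset.mem_cons_self m r) hm
          refine small_move m r (by omega) ?_
          rw [← SS_cons, ← TT_cons]
          rw [Multiset.sum_cons] at hE
          exact pp_even (by omega) (by omega) hS hT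
        · exact caseC2 s (by omega) (by omega) hS (by omega) hodd
      · by_cases hT : SS s + 2 ≤ 2 * TT s
        · obtain ⟨m, r, rfl, hm⟩ := exists_odd s (by omega)
          have := hodd m (Multiset.mem_cons_self m r) hm
          refine small_move m r (by omega) ?_
          rw [← SS_cons, ← TT_cons]
          rw [Multiset.sum_cons] at hE
          exact pp_odd (by omega) (by omega) hT
        · exact caseC3 s (by omega) (by omega) (by omega) (by omega) hodd

end Pool.Agent.Q320.Heap337
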